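import Pool.Agent.H212AN.Two

set_option autoImplicit false

/-!
# Discs with at most two equal circular holes are determined by their Dirichlet spectrum

Let `D` be an open disc minus at most two disjoint closed discs of the same radius, in any
position, and let `Ω` be any bounded plane domain with smooth boundary. If all but finitely many
Dirichlet eigenvalues of `D` and `Ω` agree, then `Ω` is congruent to `D`.

Main idea. The heat trace is `1 / (4 π t)` times the expected area of the set of positions of a
random loop `K` (a Brownian bridge of duration `t`) inside the domain.
1. The area of the set of positions of a compact set `K` inside or outside of a large disc is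
   expanded up to the first order in the curvature with the support function of `K`; the error term
   is given by the edges of the convex hull of `K`. This proves the heat expansion for all smooth
   plane domains, with the invariants area, perimeter, number of holes, total squared curvature.
2. These four invariants show that `Ω` is a disc with the same number of circular holes of the same
   radii (starting library).
3. For discs with equal holes only the loops which meet two boundary components matter. Two discs
   of the class which are isospectral have two of the three distances between the boundary
   components in common: loops which meet two components at distance `d` contribute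
   `exp (- d ^ 2 / t)`, up to smaller exponential factors, those which meet all three components
   contribute less than the two smallest distances, and a hole is met together with the outer circle
   more often than together with another hole at the same distance.
4. The remaining distance is recovered by a strict inequality: reflection in a line and a two-point
   inequality for the loops show that the heat trace changes strictly if one hole is replaced by its
   mirror image in a line through the centre of the disc or of the other hole.
-/

open Set Metric Filter
open Pool.Agent.W594.AN (ClosedCurve dirichletEigenvalue)

namespace Pool.Agent.Results.MP_5b0138_an.AtMostTwoEqualHoles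

/-- A bounded plane domain with smooth boundary: a bounded connected open set whose boundary is the
union of finitely many disjoint embedded smooth closed curves. -/
def IsSmoothDomain (Ω : Set ℂ) : Prop :=
  IsOpen Ω ∧ IsConnected Ω ∧ Bornology.IsBounded Ω ∧ ∃ (n : ℕ) (c : Fin n → ClosedCurve),
    frontier Ω = (⋃ i, range (c i).γ) ∧
    Pairwise fun i j => Disjoint (range (c i).γ) (range (c j).γ)

/-- `ball z R \ ⋃ i, closedBall (w i) r` is the disc of radius `R` with `n` holes of radius `r`, and
`φ : ℂ ≃ᵢ ℂ` is an isometry of the plane. -/
theorem result (n : ℕ) (hn : n ≤ 2) (R r : ℝ) (hr : 0 < r) (hR : 0 < R) (z : ℂ) (w : Fin n → ℂ)
    (hw : ∀ i, closedBall (w i) r ⊆ ball z R)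
    (hd : Pairwise fun i j => Disjoint (closedBall (w i) r) (closedBall (w j) r))
    (Ω : Set ℂ) (hΩ : IsSmoothDomain Ω)
    (h : ∀ᶠ k in atTop, dirichletEigenvalue (ball z R \ ⋃ i, closedBall (w i) r) k =
      dirichletEigenvalue Ω k) :
    ∃ φ : ℂ ≃ᵢ ℂ, φ '' (ball z R \ ⋃ i, closedBall (w i) r) = Ω := by
  obtain ⟨h1, h2, h3, m, c, h4, h5⟩ := hΩ
  exact Pool.Agent.H212AN.main_two hn hr hR ⟨z, w, hw, hd, rfl⟩ ⟨h1, h2, h3, h4, h5⟩ h

end Pool.Agent.Results.MP_5b0138_an.AtMostTwoEqualHoles
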