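import Pool.Agent.H212AN.Fin

set_option autoImplicit false

/-!
# Almost every disc with equal circular holes has only finitely many isospectral companions

For every number `n ≥ 3` of holes and every `R > 0`: for Lebesgue-almost all positions and common
radii of `n` disjoint holes in the disc of radius `R` there are, up to congruence, only finitely many
plane domains with smooth boundary which have the same Dirichlet spectrum as the disc with these
holes (even up to finitely many eigenvalues).

Main idea.
1. The heat expansion (proved in the same library) shows that every smooth domain with the same
   spectrum up to finitely many eigenvalues is again a disc of radius `R` with `n` holes of the same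
   radius, and that all eigenvalues agree. The least distance of two boundary components is
   determined as well (the random loops which meet two components give the leading exponentially
   small term), so the isospectral configurations form a compact set.
2. The sums of the powers of the inverses of the eigenvalues are real analytic functions of the
   centres and the radius: piecewise affine deformations of the domain, Lipschitz functions in the
   min-max formula.
3. Near a generic ring of holes the configuration is determined, so these functions are injective
   on an open set (modulo rotations), and hence `2 n` of them have independent differentials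
   somewhere; by analyticity (the space of configurations is connected, as the holes can be made
   small) they have independent differentials almost everywhere. The critical values form a null
   set and the preimage of a null set is null outside the critical points, so for almost every
   configuration all its companions are regular points of the spectral map, so they are isolated
   (modulo rotations), and by compactness finite in number.
-/

open Set Metric Filter MeasureTheory
open Pool.Agent.W594.AN (ClosedCurve dirichletEigenvalue)

namespace Pool.Agent.Results.MP_5b0138_an.FinitelyManyCompanionsHoles

/-- A bounded plane domain with smooth boundary: a bounded connected open set whose boundary is the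
union of finitely many disjoint embedded smooth closed curves. -/
def IsSmoothDomain (Ω : Set ℂ) : Prop :=
  IsOpen Ω ∧ IsConnected Ω ∧ Bornology.IsBounded Ω ∧ ∃ (n : ℕ) (c : Fin n → ClosedCurve),
    frontier Ω = (⋃ i, range (c i).γ) ∧
    Pairwise fun i j => Disjoint (range (c i).γ) (range (c j).γ)

/-- `ball 0 R \ ⋃ i, closedBall (q.1 i) q.2` is the disc of radius `R` with `n` holes of radius `q.2`
centred at the points `q.1 i`, and `φ : ℂ ≃ᵢ ℂ` is an isometry of the plane. -/
theorem result (n : ℕ) (hn : 3 ≤ n) (R : ℝ) (hR : 0 < R) :
    ∀ᵐ q : (Fin n → ℂ) × ℝ, 0 < q.2 → (∀ i, closedBall (q.1 i) q.2 ⊆ ball 0 R) →
      (Pairwise fun i j => Disjoint (closedBall (q.1 i) q.2) (closedBall (q.1 j) q.2)) →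
      ∃ S : Set (Set ℂ), S.Finite ∧ ∀ Ω : Set ℂ, IsSmoothDomain Ω →
        (∀ᶠ k in atTop, dirichletEigenvalue (ball 0 R \ ⋃ i, closedBall (q.1 i) q.2) k =
          dirichletEigenvalue Ω k) →
        ∃ D ∈ S, ∃ φ : ℂ ≃ᵢ ℂ, φ '' D = Ω := by
  filter_upwards [Pool.Agent.H212AN.gfin_main hn hR] with q hq h0 h1 h2
  have hok : Pool.Agent.H212AN.OKn n R q.2 q.1 := by
    have := Pool.Agent.H212AN.OKn_of (z := 0) h0 h1 h2
    simpa using this
  obtain ⟨S, hS, h⟩ := hq hok
  refine ⟨S, hS, ?_⟩
  rintro Ω ⟨k1, k2, k3, m, c, k4, k5⟩ hiso
  exact h Ω m c ⟨k1, k2, k3, k4, k5⟩ hiso

end Pool.Agent.Results.MP_5b0138_an.FinitelyManyCompanionsHoles
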