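import Pool.Agent.H212AN.Reg

set_option autoImplicit false

/-!
# Discs with equal holes at the vertices of a regular polygon are determined by their spectrum

A disc of radius `R` with `n ≥ 3` holes of radius `r`, centred at the vertices of a regular `n`-gon
inscribed in the concentric circle of radius `a`, is determined by its Dirichlet spectrum (even up
to finitely many eigenvalues) among all plane domains with smooth boundary, if the distance
`R - r - a` of the holes from the outer circle and the distance `s - 2 r` of neighbouring holes
(`s` the side of the polygon) differ by a factor less than `3 / 2`, and no arithmetic coincidence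
occurs: for given `n`, `R`, `r` this excludes finitely many values of `a`. If `n ≤ 5` and the two
distances are equal, no arithmetic condition is needed.

Main idea. The heat trace is `1 / (4 π t)` times the expected area of the set of positions of a
random loop (a Brownian bridge of duration `t`) inside the domain.
1. The heat expansion (proved in the same library) shows that every smooth domain with the same
   spectrum up to finitely many eigenvalues is again a disc of radius `R` with `n` holes of radius
   `r`, and that the two heat traces agree for all `t > 0`.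
2. Loops which meet two boundary components at distance `x` contribute
   `c(x) √t exp (- x ^ 2 / t) (1 + o(1))`, with an explicit constant `c(x)` for two holes and
   another one for a hole and the outer circle; loops which meet three components contribute less
   than `exp (- (3 g / 2) ^ 2 / t)` where `g` is the least distance, up to subexponential factors. So
   the least distance is determined, and so are, in the absence of coincidences, the numbers of
   pairs of holes, and of holes and the outer circle, at each distance less than `3 g / 2`.
3. So the `n` centres of the holes of the other domain are at distance `a` from the centre of the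
   disc, and their mutual distances are at least `s`: they form a regular polygon. For `n ≤ 5` and
   equal distances the least distance alone suffices: `n ≤ 5` points in a disc of radius `a` with
   mutual distances at least `s` form a regular polygon.
-/

open Set Metric Filter
open Pool.Agent.W594.AN (ClosedCurve dirichletEigenvalue)

namespace Pool.Agent.Results.MP_5b0138_an.RegularPolygonsOfHoles

/-- A bounded plane domain with smooth boundary: a bounded connected open set whose boundary is the
union of finitely many disjoint embedded smooth closed curves. -/
def IsSmoothDomain (Ω : Set ℂ) : Prop :=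
  IsOpen Ω ∧ IsConnected Ω ∧ Bornology.IsBounded Ω ∧ ∃ (n : ℕ) (c : Fin n → ClosedCurve),
    frontier Ω = (⋃ i, range (c i).γ) ∧
    Pairwise fun i j => Disjoint (range (c i).γ) (range (c j).γ)

/-- No arithmetic coincidence at `d`: `√(r (R + r - d) / (R d))` is not one of the fractions `l / k`
with `1 ≤ k ≤ n (n - 1) / 2` and `1 ≤ l ≤ n`. -/
def NoCoincidence (n : ℕ) (R r d : ℝ) : Prop :=
  ∀ k l : ℕ, 1 ≤ k → k ≤ n * (n - 1) / 2 → 1 ≤ l → l ≤ n →
    (k : ℝ) ^ 2 * (r * (R + r - d)) ≠ (l : ℝ) ^ 2 * (R * d)

/-- `s` is the side of the regular `n`-gon with circumradius `a`, `2 * a * sin (2 * π / n)` its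
shortest diagonal (for `n ≥ 4`), `s - 2 * r` is the distance of neighbouring holes, `R - r - a` the
distance of the holes from the outer circle, and `φ : ℂ ≃ᵢ ℂ` is an isometry of the plane. -/
theorem result (n : ℕ) (hn : 3 ≤ n) (R r a s : ℝ) (hr : 0 < r)
    (hs : s = 2 * a * Real.sin (Real.pi / n))
    (h₁ : 2 * (s - 2 * r) < 3 * (R - r - a)) (h₂ : 2 * (R - r - a) < 3 * (s - 2 * r))
    (h₃ : (n ≤ 5 ∧ R - r - a = s - 2 * r) ∨
      ∀ d ∈ ({s, 2 * a * Real.sin (2 * Real.pi / n), R + r - a} : Set ℝ), d ≤ R + r - a →
        NoCoincidence n R r d)
    (D : Set ℂ) (hD : D = ball 0 R \ ⋃ j : Fin n,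
      closedBall (a * Complex.exp (2 * Real.pi * j / n * Complex.I)) r)
    (Ω : Set ℂ) (hΩ : IsSmoothDomain Ω)
    (h : ∀ᶠ k in atTop, dirichletEigenvalue D k = dirichletEigenvalue Ω k) :
    ∃ φ : ℂ ≃ᵢ ℂ, φ '' D = Ω := by
  obtain ⟨m, rfl⟩ : ∃ m, n = m + 3 := ⟨n - 3, by omega⟩
  have hcast : ((m + 3 : ℕ) : ℝ) = (m : ℝ) + 3 := by push_cast; ring
  obtain ⟨k1, k2, k3, k, c, k4, k5⟩ := hΩ
  have hDN : D = Pool.Agent.H212AN.NH (m + 3) R r 0
      (fun i => a * Pool.Agent.H212AN.rv m i) := by
    rw [hD]
    unfold Pool.Agent.H212AN.NH Pool.Agent.H212AN.rv
    congr 1
    refine iUnion_congr fun i => ?_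
    congr 2
    push_cast
    ring_nf
  rw [hcast] at hs h₃
  subst hDN
  refine Pool.Agent.H212AN.reg_main hs hr h₁ h₂ ?_ ⟨k1, k2, k3, k4, k5⟩ h
  rcases h₃ with ⟨h4, h5⟩ | h4
  · exact Or.inl ⟨by omega, h5⟩
  · refine Or.inr fun d hd hd' => h4 d ?_ hd'
    simpa using hd

end Pool.Agent.Results.MP_5b0138_an.RegularPolygonsOfHoles
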