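import Pool.Agent.H212AN.Many

set_option autoImplicit false

/-!
# Discs with a generic ring of equal circular holes are determined by their Dirichlet spectrum

For every number `n ≥ 3` of holes, whenever `n` disjoint holes of radius `r` fit in a ring into the
disc of radius `R`, there is a nonempty open set `V` of positions of the `n` holes and an open dense
subset `U` of `V`, such that for all positions in `U` the disc with these holes is determined by its
Dirichlet spectrum (even up to finitely many eigenvalues) among all plane domains with smooth
boundary.

Main idea. The heat trace is `1 / (4 π t)` times the expected area of the set of positions of a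
random loop (a Brownian bridge of duration `t`) inside the domain.
1. The heat expansion (proved in the same library) shows that every smooth domain with the same
   spectrum up to finitely many eigenvalues is again a disc of radius `R` with `n` holes of radius
   `r`, and that the two heat traces agree for all `t > 0`.
2. Loops which meet two boundary components at distance `x` contribute
   `c(x) √t exp (- x ^ 2 / t) (1 + o(1))` with an explicit constant `c(x)`, which is different for
   two holes and for a hole and the outer circle. The law of the width of the loop is found from the
   exact heat trace of the square, and the two coordinates of the loop are independent. Loops which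
   meet three components contribute less than `exp (- (3 g / 2) ^ 2 / t)` where `g` is the least
   distance, up to subexponential factors. So the distances below `3 g / 2` are determined, with
   their types, if no coincidence occurs.
3. For holes near a suitable regular polygon, `2 n` distances are recovered in this way: the
   distances of the `n` holes from the outer circle and the `n` distances of neighbouring holes; the
   other domain is again nearly a regular ring. The angles at the centre add up to `2 π`; for generic
   positions this relation fails for all arrangements of the `2 n` numbers, except for the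
   rotations and reflections of the given one.
-/

open Set Metric Filter
open Pool.Agent.W594.AN (ClosedCurve dirichletEigenvalue)

namespace Pool.Agent.Results.MP_5b0138_an.RingsOfEqualHoles

/-- A bounded plane domain with smooth boundary: a bounded connected open set whose boundary is the
union of finitely many disjoint embedded smooth closed curves. -/
def IsSmoothDomain (Ω : Set ℂ) : Prop :=
  IsOpen Ω ∧ IsConnected Ω ∧ Bornology.IsBounded Ω ∧ ∃ (n : ℕ) (c : Fin n → ClosedCurve),
    frontier Ω = (⋃ i, range (c i).γ) ∧
    Pairwise fun i j => Disjoint (range (c i).γ) (range (c j).γ)

/-- `ball 0 R \ ⋃ i, closedBall (w i) r` is the disc of radius `R` with `n` holes of radius `r`, and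
`φ : ℂ ≃ᵢ ℂ` is an isometry of the plane. -/
theorem result (n : ℕ) (hn : 3 ≤ n) (R r : ℝ) (hr : 0 < r)
    (hroom : r * (1 + Real.sin (Real.pi / n)) < R * Real.sin (Real.pi / n)) :
    ∃ V U : Set (Fin n → ℂ), IsOpen V ∧ V.Nonempty ∧ IsOpen U ∧ U ⊆ V ∧ V ⊆ closure U ∧
      (∀ w ∈ V, (∀ i, closedBall (w i) r ⊆ ball 0 R) ∧
        Pairwise fun i j => Disjoint (closedBall (w i) r) (closedBall (w j) r)) ∧
      ∀ w ∈ U, ∀ Ω : Set ℂ, IsSmoothDomain Ω →
        (∀ᶠ k in atTop, dirichletEigenvalue (ball 0 R \ ⋃ i, closedBall (w i) r) k =
          dirichletEigenvalue Ω k) →
        ∃ φ : ℂ ≃ᵢ ℂ, φ '' (ball 0 R \ ⋃ i, closedBall (w i) r) = Ω := by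
  obtain ⟨V, U, h1, h2, h3, h4, h5, h6, h7⟩ := Pool.Agent.H212AN.many_main hn hr hroom
  refine ⟨V, U, h1, h2, h3, h4, h5, fun w hw => Pool.Agent.H212AN.OKn_iff (h6 w hw), ?_⟩
  rintro w hw Ω ⟨k1, k2, k3, m, c, k4, k5⟩ hiso
  exact h7 w hw Ω m c ⟨k1, k2, k3, k4, k5⟩ hiso

end Pool.Agent.Results.MP_5b0138_an.RingsOfEqualHoles
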